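import Pool.Agent.Q294.SR.LineFin
import Pool.Agent.Q65.SR.Turn
import Pool.Agent.Q153.SR.WIND

/-!
# Exact relations between the boundary visits of the critical random-cluster interface

The critical (self-dual) random-cluster model with any parameter `q > 0` in the lattice rectangle with
the vertices `(x, y)`, `0 ≤ x ≤ m`, `0 ≤ y ≤ k`. The wired arc consists of the lower side from `(0, 0)`
to `(c, 0)` and of the left side from `(0, 0)` to `(0, d)`; the rest of the boundary is free. The
boundary condition of the problem is `c = m`, `d = k`.

Definitions (`Pool/Agent/Q294/SR/Defs.lean`): `arc`, `blk` (the random edges), `opn` (the open edges),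
`cls` (number of clusters), `wt` (weight `√q ^ (open edges) * q ^ (clusters)`), `mean` (expectation);
`rgt`, `upp`: numbers of vertices of the right and of the upper side which are connected to the arc;
`low`, `lft`: numbers of the vertices `(x, 0)`, `x > c`, and `(0, y)`, `y > d`, which are connected to
the arc; `alow`, `alft`: numbers of edges of the lower and of the left part of the arc whose inner
face is connected to the outside of the rectangle by a path of faces which crosses no open edge;
`lowr`: as `low`, with `x > a`; `crs`: number of crossings of the line `x = a + 1/4` by the interface;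
`far`: indicator of the event that `(0, 0)` is connected to the right or to the upper side.
-/

set_option autoImplicit false

namespace Pool.Agent.Results.MP_216314_pr.BoundarySumRules

open Pool.Agent.Q294.SR

theorem result (q : ℝ) (hq : 0 < q) (m k c d : ℕ) (hc : c ≤ m) (hd : d ≤ k) :
    -- the two relations
    (mean q m k c d (rgt m k c d) + √q * mean q m k c d (low m c d) =
      1 + mean q m k c d (alft m k c d) + mean q m k c d (lft k c d)) ∧
    (mean q m k c d (upp m k c d) + √q * mean q m k c d (lft k c d) =
      1 + mean q m k c d (alow m k c d) + mean q m k c d (low m c d)) ∧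
    -- crossings of a vertical line
    (q ≤ 4 → ∀ a : ℕ, a < m →
      √((2 - √q) * (1 - q / 4)) * (mean q m k c d (rgt m k c d) +
        √q * mean q m k c d (lowr m c d a) - 1) ≤ mean q m k c d (crs m k c d a)) ∧
    -- free boundary condition, `q ≤ 1`
    (q ≤ 1 → 2 / ((m : ℝ) + k + 2) ≤ mean q m k 0 0 (far m k 0 0)) := by
  have hW : S_WIND := Pool.Agent.Q153.SR.wind Pool.Agent.Q65.SR.turn
  obtain ⟨h1, h2⟩ := sum_rules (m := m) (k := k) hW hq hc hd
  exact ⟨h1, h2, fun hq4 a ha => line hW hq hq4 hc hd ha, fun hq1 => corner hW hq hq1⟩

end Pool.Agent.Results.MP_216314_pr.BoundarySumRules
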