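import Pool.Agent.Q297.FKL.Fin

/-!
The critical random-cluster model with parameter `q ∈ (0, 4]` on the lattice rectangle of the
problem (lower and left sides wired, upper and right sides free): the number of closed loops is of
order `√q` times the number of edges, with exponentially small deviation probabilities, and the
total variation distance to the uniform spanning tree is the probability that there is a closed
loop; it tends to `0` (to `1`) if and only if `q = o(mesh ^ 4)` (`q / mesh ^ 4 → ∞`).
The definitions are in `Pool/Agent/Q297/FKL/Defs.lean` and (`mean`) `Pool/Agent/Q297/FKL/Fin.lean`.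
-/

set_option autoImplicit false

namespace Pool.Agent.Results.MP_216314_pr.ClosedLoops

open Filter Topology Pool.Agent.Q297.FKL

theorem result :
    (∀ (m n : ℕ) (q : ℝ), 0 < q → q ≤ 4 →
      -- no closed loop: spanning trees
      (∀ F ⊆ edges m n, IsTree m n F ↔ loops m n F = 0) ∧
      -- total variation distance to the uniform spanning tree
      tv m n q = pr m n q (fun F => 1 ≤ loops m n F) ∧
      1 - Real.exp (-(Real.sqrt q * (m * n) / 2 ^ 29)) ≤ tv m n q ∧
      tv m n q ≤ 1 - 1 / (1 + Real.sqrt q) ^ (2 * m * n) ∧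
      -- the mean number of closed loops
      Real.sqrt q * (m * n) / 2 ^ 29 ≤ mean m n q ∧
      mean m n q ≤ Real.sqrt q / (1 + Real.sqrt q) * (2 * (m * n)) ∧
      -- large deviations
      pr m n q (fun F => (loops m n F : ℝ) ≤ Real.sqrt q * (m * n) / 2 ^ 31) ≤
        Real.exp (-(Real.sqrt q * (m * n) / 2 ^ 31)) ∧
      pr m n q (fun F => 6 * (Real.sqrt q * (m * n)) ≤ (loops m n F : ℝ)) ≤
        Real.exp (-(2 * (Real.sqrt q * (m * n))))) ∧
    -- the window `q ~ mesh ^ 4`
    (∀ (m n : ℕ → ℕ) (q : ℕ → ℝ), (∀ k, 0 < q k ∧ q k ≤ 4) →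
      (Tendsto (fun k => q k * ((m k : ℝ) * n k) ^ 2) atTop (𝓝 0) →
        Tendsto (fun k => tv (m k) (n k) (q k)) atTop (𝓝 0)) ∧
      (Tendsto (fun k => q k * ((m k : ℝ) * n k) ^ 2) atTop atTop →
        Tendsto (fun k => tv (m k) (n k) (q k)) atTop (𝓝 1))) :=
  ⟨fun m n _ hq hq4 => ⟨fun _ hF => isTree_iff hF, tv_pr m n hq, tv_ge m n hq hq4, tv_le m n hq,
    mean_ge m n hq hq4, mean_le m n hq, low_tail hq hq4, up_tail hq⟩, window⟩

end Pool.Agent.Results.MP_216314_pr.ClosedLoops
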