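import Pool.Agent.TH976.QC.Fin
import Pool.Agent.H160R2.SA.Arm

/-!
# Hitting probabilities of the interface near a corner: Cardy's formula up to constants

The random-cluster model with `q = 1` at its critical point (critical bond percolation) in the
quadrant `{x ≥ 0, y ≥ 0}` of `ℤ²`, the domain of the problem seen from a corner. The boundary
vertices are `side t`, `t ∈ ℤ`: the vertex `(t, 0)` for `t ≥ 0` and `(0, -t)` for `t < 0`.

`cross I J` is the probability that the boundary sets `side I` and `side J` are joined by an open
path of the quadrant. For `J = {t ≥ c}` this is the probability that the interface between the wired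
arc `side J` and the free arc `{side t : t < c}` (its cluster) touches `side I`.

The conformal map `z ↦ z²` of the quadrant onto the half-plane sends the boundary point at signed
distance `t` from the corner to `t |t|`. The theorem: for all intervals `I = [a, b]`, `J = [c, d]`,
also unbounded, at all distances from the corner and from each other, `cross I J` and
`1 - cross I J` are comparable with Cardy's formula for the cross ratio of the images of the ends,
with universal constants.
-/

set_option autoImplicit false

namespace Pool.Agent.Results.MP_216314_pr.CornerHitting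

open MeasureTheory

/-- The square lattice: two points of `ℤ²` are adjacent when they differ by one in exactly one
coordinate. -/
def Z2 : SimpleGraph (ℤ × ℤ) where
  Adj u v := |u.1 - v.1| + |u.2 - v.2| = 1
  symm := ⟨fun u v h => by rw [abs_sub_comm v.1, abs_sub_comm v.2]; exact h⟩
  loopless := ⟨fun u h => by simp at h⟩

/-- Critical bond percolation: every edge of the square lattice is open (`true`) with
probability `1/2`, independently of the other edges. -/
noncomputable def crit : Measure (Z2.edgeSet → Bool) :=
  Measure.infinitePi (fun _ => ProbabilityTheory.bernoulliMeasure true false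
    ⟨1/2, by norm_num, by norm_num⟩)

/-- The graph of the open edges. -/
def openGraph (ω : Z2.edgeSet → Bool) : SimpleGraph (ℤ × ℤ) :=
  SimpleGraph.fromEdgeSet {e | ∃ h : e ∈ Z2.edgeSet, ω ⟨e, h⟩ = true}

/-- The boundary vertex of the quadrant at signed distance `t` from the corner. -/
def side (t : ℤ) : ℤ × ℤ := (max t 0, max (-t) 0)

/-- The probability that the boundary sets `I` and `J` are joined by an open path of the closed
quadrant. -/
noncomputable def cross (I J : Set ℤ) : ℝ :=
  crit.real {ω | ∃ x ∈ I, ∃ y ∈ J, ∃ p : (openGraph ω).Walk (side x) (side y),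
    ∀ v ∈ p.support, 0 ≤ v.1 ∧ 0 ≤ v.2}

/-- Cardy's function: the crossing probability of the limit as a function of the cross ratio. -/
noncomputable def cardy (x : ℝ) : ℝ :=
  (∫ u in (0 : ℝ)..x, u ^ (-(2/3) : ℝ) * (1 - u) ^ (-(2/3) : ℝ)) /
    ∫ u in (0 : ℝ)..1, u ^ (-(2/3) : ℝ) * (1 - u) ^ (-(2/3) : ℝ)

/-- The image of the boundary point at signed distance `t` under the conformal map `z ↦ z ^ 2` of
the quadrant onto the upper half-plane. -/
noncomputable def sq (t : ℝ) : ℝ := t * |t|

/-- The cross ratio. -/
noncomputable def ratio (z₁ z₂ z₃ z₄ : ℝ) : ℝ :=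
  ((z₂ - z₁) * (z₄ - z₃)) / ((z₃ - z₁) * (z₄ - z₂))

/-- `p` is between `c` and `C` times `cardy x`, and `1 - p` between `c` and `C` times
`1 - cardy x`. -/
def Comp (c C p x : ℝ) : Prop :=
  c * cardy x ≤ p ∧ p ≤ C * cardy x ∧ c * (1 - cardy x) ≤ 1 - p ∧ 1 - p ≤ C * (1 - cardy x)

/-- **Cardy's formula up to constants in the quadrant.** -/
theorem result : ∃ c C : ℝ, 0 < c ∧ 0 < C ∧
    (∀ a b c' d : ℤ, a ≤ b → b < c' → c' ≤ d →
      Comp c C (cross (Set.Icc a b) (Set.Icc c' d))
        (ratio (sq (a - 1)) (sq b) (sq c') (sq (d + 1)))) ∧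
    (∀ a b c' : ℤ, a ≤ b → b < c' →
      Comp c C (cross (Set.Icc a b) (Set.Ici c'))
        ((sq b - sq (a - 1)) / (sq c' - sq (a - 1)))) ∧
    (∀ b c' d : ℤ, b < c' → c' ≤ d →
      Comp c C (cross (Set.Iic b) (Set.Icc c' d))
        ((sq (d + 1) - sq c') / (sq (d + 1) - sq b))) := by
  obtain ⟨c, C, hc, hC, h1, h2, h3⟩ := TH976.QC.cardy_quadrant Pool.Agent.H160R2.SA.arSharp
  exact ⟨c, C, hc, hC, h1, h3, h2⟩

end Pool.Agent.Results.MP_216314_pr.CornerHitting
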