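import Pool.Agent.Q78.FKI.Last

/-!
The critical random-cluster model with parameter `q ∈ (0, 4]` on the lattice rectangle of the
problem (lower and left sides wired, upper and right sides free): a law of large numbers for the
contacts of the interface with itself and with the closed loops, at every scale up to `o(1 / mesh)`.

A corner `(v, k)` is the quadrant of the vertex `v` between the directions `k` and `k + 1`
(directions `0, 1, 2, 3`: right, up, left, down). The loops pass through the corners; the map `nx`
gives the next corner. The edge after the corner `c` is `ex c`, and `par c` is the corner before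
the same edge on its other side.
-/

set_option autoImplicit false

namespace Pool.Agent.Results.MP_216314_pr.LoopContacts

open Pool.Agent.Q297.FKL Q78.FKI

noncomputable section

/-- The interface, closed up along the outer side of the wired sides: the loop of the corner
below the lower right vertex. -/
def On (m n : ℕ) (F : Finset H974.Edg) (c : Cor) : Prop :=
  ∃ t, (nx m n F)^[t] (start m) = c

/-- The interface passes the edge after the corner `c` a second time, from its other side, before
it comes back to its start, and `l` is the list of the corners in between (the last one is the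
corner before the second passage). -/
def Self (m n : ℕ) (F : Finset H974.Edg) (c : Cor) (l : List Cor) : Prop :=
  On m n F c ∧ 1 ≤ l.length ∧ (nx m n F)^[l.length] c = par c ∧
    (∀ i, 1 ≤ i → i ≤ l.length → (nx m n F)^[i] c ≠ start m) ∧
    (List.range l.length).map (fun i => (nx m n F)^[i + 1] c) = l

/-- The interface passes the edge after the corner `c`, the other side of this edge is on a closed
loop, and `l` is the list of all corners of this loop. -/
def Touch (m n : ℕ) (F : Finset H974.Edg) (c : Cor) (l : List Cor) : Prop :=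
  On m n F c ∧ ¬ On m n F (par c) ∧ 1 ≤ l.length ∧ (nx m n F)^[l.length] (par c) = par c ∧
    (∀ i, 1 ≤ i → i < l.length → (nx m n F)^[i] (par c) ≠ par c) ∧
    (List.range l.length).map (fun i => (nx m n F)^[i + 1] (par c)) = l

/-- The contacts of the interface with itself at random edges which cut off at most `k` corners. -/
def selfs (m n k : ℕ) (F : Finset H974.Edg) : Set (Cor × List Cor) :=
  {p | ex p.1 ∈ edges m n ∧ p.2.length ≤ k ∧ Self m n F p.1 p.2}

/-- The contacts of the interface at random edges with closed loops of at most `k` corners. -/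
def touches (m n k : ℕ) (F : Finset H974.Edg) : Set (Cor × List Cor) :=
  {p | ex p.1 ∈ edges m n ∧ p.2.length ≤ k ∧ Touch m n F p.1 p.2}

/-- The expectation. -/
def E (m n : ℕ) (q : ℝ) (X : Finset H974.Edg → ℝ) : ℝ :=
  ∑ F ∈ (edges m n).powerset, fk m n q F * X F

theorem self_iff {m n : ℕ} {F : Finset H974.Edg} {c : Cor} {l : List Cor} :
    Self m n F c l ↔ SL (nx m n F) (start m) c (par c) l := by
  unfold Self SL TT pth
  constructor
  · rintro ⟨h1, h2, h3, h4, h5⟩
    exact ⟨⟨h1, h2, h3, h4⟩, h5⟩
  · rintro ⟨⟨h1, h2, h3, h4⟩, h5⟩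
    exact ⟨h1, h2, h3, h4, h5⟩

theorem touch_iff {m n : ℕ} {F : Finset H974.Edg} {c : Cor} {l : List Cor} :
    Touch m n F c l ↔ TL (nx m n F) (start m) c (par c) l := by
  unfold Touch TL UU pth
  constructor
  · rintro ⟨h1, h2, h3, h4, h5, h6⟩
    exact ⟨⟨h1, h2, h3, h4, h5⟩, h6⟩
  · rintro ⟨⟨h1, h2, h3, h4, h5⟩, h6⟩
    exact ⟨h1, h2, h3, h4, h5, h6⟩

theorem selfs_eq (m n k : ℕ) (F : Finset H974.Edg) : selfs m n k F = ↑(SS m n k F) := by
  ext p
  rw [Finset.mem_coe, mem_SS, ← self_iff]
  rfl

theorem touches_eq (m n k : ℕ) (F : Finset H974.Edg) : touches m n k F = ↑(TS m n k F) := by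
  ext p
  rw [Finset.mem_coe, mem_TS, ← touch_iff]
  rfl

theorem exact_id {m n : ℕ} {q : ℝ} (hq : 0 < q) {c : Cor} (hc : ex c ∈ edges m n)
    (l : List Cor) : pr m n q (fun F => Touch m n F c l) =
      Real.sqrt q * pr m n q (fun F => Self m n F c l) := by
  classical
  have h := dcount (m := m) (n := n) (k := l.length) hq
    (fun _ p => if p = (c, l) then 1 else 0)
  have h1 : ∀ F ∈ (edges m n).powerset, fk m n q F * ∑ p ∈ TS m n l.length F,
      (if p = (c, l) then (1 : ℝ) else 0) = if Touch m n F c l then fk m n q F else 0 := by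
    intro F _
    rw [Finset.sum_ite_eq']
    have : (c, l) ∈ TS m n l.length F ↔ Touch m n F c l := by
      rw [mem_TS, touch_iff]
      exact ⟨fun h => h.2.2, fun h => ⟨hc, le_rfl, h⟩⟩
    by_cases h2 : Touch m n F c l
    · rw [if_pos (this.2 h2), if_pos h2, mul_one]
    · rw [if_neg (fun h3 => h2 (this.1 h3)), if_neg h2, mul_zero]
  have h2 : ∀ F ∈ (edges m n).powerset, fk m n q F * ∑ p ∈ SS m n l.length F,
      (if p = (c, l) then (1 : ℝ) else 0) = if Self m n F c l then fk m n q F else 0 := by
    intro F _
    rw [Finset.sum_ite_eq']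
    have : (c, l) ∈ SS m n l.length F ↔ Self m n F c l := by
      rw [mem_SS, self_iff]
      exact ⟨fun h => h.2.2, fun h => ⟨hc, le_rfl, h⟩⟩
    by_cases h2 : Self m n F c l
    · rw [if_pos (this.2 h2), if_pos h2, mul_one]
    · rw [if_neg (fun h3 => h2 (this.1 h3)), if_neg h2, mul_zero]
  rw [Finset.sum_congr rfl h1, Finset.sum_congr rfl h2] at h
  unfold pr
  rw [Finset.sum_filter, Finset.sum_filter]
  exact h

theorem result :
    -- the interface goes to the upper left vertex
    (∀ (m n : ℕ), ∀ F ⊆ edges m n, On m n F ((0, (n : ℤ)), 2)) ∧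
    -- (1) every edge, every loop
    (∀ (m n : ℕ) (q : ℝ), 0 < q → ∀ (c : Cor) (l : List Cor), ex c ∈ edges m n →
      pr m n q (fun F => Touch m n F c l) =
        Real.sqrt q * pr m n q (fun F => Self m n F c l)) ∧
    -- (2) the mean square
    (∀ (m n k : ℕ) (q M : ℝ) (h : Cor × List Cor → ℝ), 0 < q → q ≤ 4 → 0 < M →
      (∀ p, |h p| ≤ 1) →
      E m n q (fun F => ((Real.sqrt q * ∑ᶠ p ∈ selfs m n k F, h p - ∑ᶠ p ∈ touches m n k F, h p) /
        max ((selfs m n k F).ncard + (touches m n k F).ncard : ℝ) M) ^ 2) ≤ 600 * k / M) ∧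
    -- (3) there are many contacts, and their numbers have the ratio `√q`
    (∀ (m n k : ℕ) (q B : ℝ), 0 < q → q ≤ 4 → B = max (Real.sqrt q) (1 / Real.sqrt q) →
      1 ≤ m → 1 ≤ n → 4 ≤ k →
      pr m n q (fun F => ((selfs m n k F).ncard : ℝ) < (m + n) / (1024 * B ^ 5)) ≤
        2 * Real.exp (-((m + n) / (1024 * B ^ 5))) ∧
      ∀ ε : ℝ, 0 < ε → ε ≤ 1 →
        pr m n q (fun F => ε * (selfs m n k F).ncard ≤
          |((touches m n k F).ncard : ℝ) - Real.sqrt q * (selfs m n k F).ncard|) ≤
          10 ^ 7 * B ^ 5 * k / (ε ^ 2 * (m + n))) := by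
  have hS : ∀ m n k F, (selfs m n k F).ncard = (SS m n k F).card := fun m n k F => by
    rw [selfs_eq, Set.ncard_coe_finset]
  have hT : ∀ m n k F, (touches m n k F).ncard = (TS m n k F).card := fun m n k F => by
    rw [touches_eq, Set.ncard_coe_finset]
  refine ⟨fun m n F hF => reach_top hF, fun m n q hq c l hc => exact_id hq hc l, ?_, ?_⟩
  · intro m n k q M h hq hq4 hM hh
    have h1 := ms (m := m) (n := n) (k := k) hq hq4 hh hM
    unfold E
    refine le_trans (le_of_eq ?_) h1
    refine Finset.sum_congr rfl fun F _ => ?_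
    beta_reduce
    unfold EE DD
    rw [hS, hT, selfs_eq, touches_eq, finsum_mem_coe_finset, finsum_mem_coe_finset]
  · intro m n k q B hq hq4 hB hm hn hk
    have hB' : B = BB q := hB
    subst hB'
    simp only [hS, hT]
    exact ⟨many hq hm hn hk, fun ε h1 h2 => lln hq hq4 hm hn hk h1 h2⟩

end

end Pool.Agent.Results.MP_216314_pr.LoopContacts
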